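import Pool.Agent.H98.KS.Targets3

/-!
# MP_ff41bc_an, module ARC
helper1
-/

open scoped BigOperators
open MeasureTheory

noncomputable section

namespace Pool.Agent.H1.KS

open Pool.Agent.H98.KS

theorem arc_measurable (k X : ℕ) : MeasurableSet (MinS k X) := by
  have : MinS k X = {θ : ℝ | 0 ≤ θ} ∩ {θ : ℝ | θ ≤ 1} ∩
      ⋂ q : ℕ, ⋂ (_ : 1 ≤ q), ⋂ (_ : (q : ℝ) ≤ (X : ℝ) ^ ((1 : ℝ) / 20)), ⋂ a : ℤ,
        {θ : ℝ | (X : ℝ) ^ ((1 : ℝ) / 20) / (X : ℝ) ^ k < |θ - a / q|} := by
    ext θ
    simp only [MinS, Set.mem_ofPred_eq, Set.mem_inter_iff, Set.mem_iInter]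
    tauto
  rw [this]
  apply MeasurableSet.inter
  · exact (measurableSet_le measurable_const measurable_id).inter
      (measurableSet_le measurable_id measurable_const)
  · refine MeasurableSet.iInter fun q => MeasurableSet.iInter fun _ => MeasurableSet.iInter fun _ =>
      MeasurableSet.iInter fun a => ?_
    exact (isOpen_lt continuous_const (by fun_prop)).measurableSet

theorem arc_cover (k X : ℕ) (θ : ℝ) (h0 : 0 ≤ θ) (h1 : θ ≤ 1) (hθ : θ ∉ MinS k X) :
    ∃ q ∈ Finset.Icc 1 (Qx X), ∃ a ∈ res q,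
      |θ - (a : ℝ) / q| ≤ (X : ℝ) ^ ((1 : ℝ) / 20) / (X : ℝ) ^ k := by
  simp only [MinS, Set.mem_ofPred_eq, not_and, not_forall, not_lt] at hθ
  obtain ⟨q, hq1, hq2, a, ha⟩ := hθ h0 h1
  have hqR : (1 : ℝ) ≤ q := by exact_mod_cast hq1
  have hq0 : (0 : ℝ) < q := by linarith
  have hQ1 : 1 ≤ Qx X := Nat.le_floor (by push_cast; linarith)
  by_cases ha0 : a < 0
  · refine ⟨1, by simp [hQ1], 0, ?_, ?_⟩
    · simp [res]
    · have haR : (a : ℝ) / q ≤ 0 := by
        apply div_nonpos_of_nonpos_of_nonneg _ hq0.le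
        exact_mod_cast ha0.le
      have : |θ - ((0 : ℕ) : ℝ) / ((1 : ℕ) : ℝ)| ≤ |θ - a / q| := by
        simp only [Nat.cast_zero, zero_div, sub_zero]
        rw [abs_of_nonneg h0, abs_of_nonneg (by linarith)]
        linarith
      exact this.trans ha
  · by_cases haq : (q : ℤ) < a
    · refine ⟨1, by simp [hQ1], 1, ?_, ?_⟩
      · simp [res]
      · have haR : 1 ≤ (a : ℝ) / q := by
          rw [le_div_iff₀ hq0, one_mul]
          exact_mod_cast haq.le
        have : |θ - ((1 : ℕ) : ℝ) / ((1 : ℕ) : ℝ)| ≤ |θ - a / q| := by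
          simp only [Nat.cast_one, div_one]
          rw [abs_of_nonpos (by linarith), abs_of_nonpos (by linarith)]
          linarith
        exact this.trans ha
    · push Not at ha0 haq
      obtain ⟨n, rfl⟩ := Int.eq_ofNat_of_zero_le ha0
      have hnq : n ≤ q := by exact_mod_cast haq
      have hg : 0 < Nat.gcd n q := Nat.gcd_pos_of_pos_right _ hq1
      obtain ⟨n', q', hco, hn, hq⟩ := Nat.exists_coprime n q
      have hq' : 0 < q' := by
        rcases Nat.eq_zero_or_pos q' with h | h
        · subst h; omega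
        · exact h
      have hq'q : q' ≤ q := by
        calc q' = q' * 1 := (mul_one _).symm
          _ ≤ q' * Nat.gcd n q := Nat.mul_le_mul_left _ hg
          _ = q := hq.symm
      have hn'q' : n' ≤ q' := by
        have : n' * Nat.gcd n q ≤ q' * Nat.gcd n q := by rw [← hn, ← hq]; exact hnq
        exact Nat.le_of_mul_le_mul_right this hg
      refine ⟨q', ?_, n', ?_, ?_⟩
      · rw [Finset.mem_Icc]
        refine ⟨hq', Nat.le_floor ?_⟩
        exact le_trans (by exact_mod_cast hq'q) hq2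
      · simp only [res, Finset.mem_filter, Finset.mem_range]
        exact ⟨by omega, hco⟩
      · have e : ((n : ℤ) : ℝ) / q = (n' : ℝ) / q' := by
          have hgR : ((Nat.gcd n q : ℕ) : ℝ) ≠ 0 := by exact_mod_cast hg.ne'
          have hn2 : (n : ℝ) = n' * (Nat.gcd n q : ℕ) := by exact_mod_cast hn
          have hq2' : (q : ℝ) = q' * (Nat.gcd n q : ℕ) := by exact_mod_cast hq
          have hq'R : (q' : ℝ) ≠ 0 := by exact_mod_cast hq'.ne'
          rw [Int.cast_natCast, div_eq_div_iff hq0.ne' hq'R]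
          rw [hn2, hq2']
          ring
        rw [e] at ha
        exact ha

theorem arc_subst (k X : ℕ) (hX : 1 ≤ X) (f : ℝ → ℝ) (a : ℤ) (q : ℕ) (R : ℝ) (hR : 0 ≤ R) :
    ∫ θ in {θ : ℝ | |θ - (a : ℝ) / q| ≤ R / (X : ℝ) ^ k}, f θ =
      (1 / (X : ℝ) ^ k) * ∫ κ in {κ : ℝ | |κ| ≤ R}, f (th k X a q κ) := by
  have hXk : (0 : ℝ) < (X : ℝ) ^ k := by
    have : (0 : ℝ) < X := by exact_mod_cast hX
    positivity
  have e1 : {κ : ℝ | |κ| ≤ R} = Set.Icc (-R) R := by
    ext x; simp [abs_le]
  have e2 : {θ : ℝ | |θ - (a : ℝ) / q| ≤ R / (X : ℝ) ^ k} =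
      Set.Icc ((a : ℝ) / q + (-R) / (X : ℝ) ^ k) ((a : ℝ) / q + R / (X : ℝ) ^ k) := by
    ext x
    simp only [Set.mem_ofPred_eq, Set.mem_Icc, abs_le, neg_div]
    constructor
    · rintro ⟨h1, h2⟩; constructor <;> linarith
    · rintro ⟨h1, h2⟩; constructor <;> linarith
  rw [e1, e2, integral_Icc_eq_integral_Ioc, integral_Icc_eq_integral_Ioc,
    ← intervalIntegral.integral_of_le (by
      have : (-R) / (X : ℝ) ^ k ≤ R / (X : ℝ) ^ k := by
        apply div_le_div_of_nonneg_right _ hXk.le; linarith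
      linarith),
    ← intervalIntegral.integral_of_le (by linarith)]
  unfold th
  rw [intervalIntegral.integral_comp_add_div (fun x => f x) hXk.ne' ((a : ℝ) / q)]
  rw [smul_eq_mul, ← mul_assoc, one_div, inv_mul_cancel₀ hXk.ne', one_mul]

theorem ks_ARC : T_ARC := by
  intro k X f hX hf hf0
  set R : ℝ := (X : ℝ) ^ ((1 : ℝ) / 20) with hR
  have hR0 : 0 ≤ R := by positivity
  set δ : ℝ := R / (X : ℝ) ^ k with hδ
  set A : ℕ → ℕ → Set ℝ := fun q a => {θ : ℝ | |θ - ((a : ℤ) : ℝ) / q| ≤ δ} with hA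
  have hAc : ∀ q a, IsCompact (A q a) := by
    intro q a
    have : A q a = Set.Icc (((a : ℤ) : ℝ) / q - δ) (((a : ℤ) : ℝ) / q + δ) := by
      ext x
      simp only [hA, Set.mem_ofPred_eq, Set.mem_Icc, abs_le]
      constructor
      · rintro ⟨h1, h2⟩; constructor <;> linarith
      · rintro ⟨h1, h2⟩; constructor <;> linarith
    rw [this]; exact isCompact_Icc
  have hAint : ∀ q a, Integrable ((A q a).indicator f) := by
    intro q a
    rw [integrable_indicator_iff (hAc q a).isClosed.measurableSet]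
    exact hf.continuousOn.integrableOn_compact (hAc q a)
  have hMint : Integrable ((MinS k X).indicator f) := by
    rw [integrable_indicator_iff (arc_measurable k X)]
    apply (hf.continuousOn.integrableOn_compact (isCompact_Icc (a := (0 : ℝ)) (b := 1))).mono_set
    intro x hx
    exact ⟨hx.1, hx.2.1⟩
  have hIint : Integrable ((Set.Icc (0 : ℝ) 1).indicator f) := by
    rw [integrable_indicator_iff measurableSet_Icc]
    exact hf.continuousOn.integrableOn_compact isCompact_Icc
  have hpt : ∀ x, (Set.Icc (0 : ℝ) 1).indicator f x ≤ (MinS k X).indicator f x +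
      ∑ q ∈ Finset.Icc 1 (Qx X), ∑ a ∈ res q, (A q a).indicator f x := by
    intro x
    have hsum0 : 0 ≤ ∑ q ∈ Finset.Icc 1 (Qx X), ∑ a ∈ res q, (A q a).indicator f x :=
      Finset.sum_nonneg fun q _ => Finset.sum_nonneg fun a _ =>
        Set.indicator_nonneg (fun y _ => hf0 y) _
    have hM0 : 0 ≤ (MinS k X).indicator f x := Set.indicator_nonneg (fun y _ => hf0 y) _
    by_cases hx : x ∈ Set.Icc (0 : ℝ) 1
    · rw [Set.indicator_of_mem hx]
      by_cases hxM : x ∈ MinS k X
      · rw [Set.indicator_of_mem hxM]; linarith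
      · obtain ⟨q, hq, a, ha, h⟩ := arc_cover k X x hx.1 hx.2 hxM
        have hxA : x ∈ A q a := by
          simp only [hA, Set.mem_ofPred_eq, Int.cast_natCast]
          exact h
        have h1 : f x ≤ ∑ a ∈ res q, (A q a).indicator f x := by
          refine le_trans ?_ (Finset.single_le_sum
            (fun b _ => Set.indicator_nonneg (fun y _ => hf0 y) _) ha)
          rw [Set.indicator_of_mem hxA]
        have h2 : ∑ a ∈ res q, (A q a).indicator f x ≤
            ∑ q ∈ Finset.Icc 1 (Qx X), ∑ a ∈ res q, (A q a).indicator f x :=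
          Finset.single_le_sum (f := fun q => ∑ a ∈ res q, (A q a).indicator f x)
            (fun q _ => Finset.sum_nonneg fun b _ =>
              Set.indicator_nonneg (fun y _ => hf0 y) _) hq
        linarith
    · rw [Set.indicator_of_notMem hx]
      linarith
  have hmono := integral_mono hIint (hMint.add (integrable_finsetSum _ fun q _ =>
    integrable_finsetSum _ fun a _ => hAint q a)) hpt
  rw [integral_indicator measurableSet_Icc] at hmono
  rw [intervalIntegral.integral_of_le zero_le_one, ← integral_Icc_eq_integral_Ioc]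
  refine hmono.trans ?_
  have e1 : ∫ x, ((MinS k X).indicator f + fun x => ∑ q ∈ Finset.Icc 1 (Qx X), ∑ a ∈ res q,
      (A q a).indicator f x) x = (∫ θ in MinS k X, f θ) +
      ∑ q ∈ Finset.Icc 1 (Qx X), ∑ a ∈ res q, ∫ θ in A q a, f θ := by
    rw [integral_add' hMint (integrable_finsetSum _ fun q _ =>
      integrable_finsetSum _ fun a _ => hAint q a), integral_indicator (arc_measurable k X)]
    congr 1
    rw [integral_finsetSum _ (fun q _ => integrable_finsetSum _ fun a _ => hAint q a)]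
    refine Finset.sum_congr rfl fun q _ => ?_
    rw [integral_finsetSum _ (fun a _ => hAint q a)]
    refine Finset.sum_congr rfl fun a _ => ?_
    rw [integral_indicator (hAc q a).isClosed.measurableSet]
  refine e1.le.trans ?_
  apply le_of_eq
  congr 1
  rw [Finset.mul_sum]
  refine Finset.sum_congr rfl fun q _ => ?_
  rw [Finset.mul_sum]
  refine Finset.sum_congr rfl fun a _ => ?_
  exact arc_subst k X hX f (a : ℤ) q R hR0

end Pool.Agent.H1.KS
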