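import Pool.Agent.H98.KS.Targets2

/-!
# MP_ff41bc_an, module G4
helper1
-/

open scoped BigOperators

noncomputable section

namespace Pool.Agent.H1.KS

open Pool.Agent.H98.KS

theorem norm_ee (x : ℝ) : ‖ee x‖ = 1 := by
  unfold ee
  have : (2 * (Real.pi : ℂ) * (x : ℂ) * Complex.I) = ((2 * Real.pi * x : ℝ) : ℂ) * Complex.I := by
    push_cast; ring
  rw [this, Complex.norm_exp_ofReal_mul_I]

open Classical in
theorem g4_key (hG2 : T_G2) (k N m n : ℕ) (a b : ℤ) (hN : m * n = N) (hm : 1 ≤ m) (hn : 1 ≤ n)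
    (hd : n ∣ m) :
    ‖GG k a b N‖ ≤ 1 / (N : ℝ) *
      (((Finset.range N).filter (fun r => (n : ℤ) ∣ k * a * (r : ℤ) ^ (k - 1) + b)).card : ℝ) := by
  subst hN
  have h := hG2 k m n a b hm hn hd
  unfold GG
  rw [norm_mul]
  have e1 : ‖(1 / ((m * n : ℕ) : ℂ))‖ = 1 / ((m * n : ℕ) : ℝ) := by
    rw [norm_div, norm_one, Complex.norm_natCast]
  rw [e1]
  apply mul_le_mul_of_nonneg_left _ (by positivity)
  have e2 : ((m * n : ℕ) : ℝ) = (m : ℝ) * n := by push_cast; ring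
  rw [e2, h]
  refine (norm_sum_le _ _).trans ?_
  have : ∀ r ∈ (Finset.range (m * n)).filter
      (fun r => (n : ℤ) ∣ k * a * (r : ℤ) ^ (k - 1) + b),
      ‖ee (((a * (r : ℤ) ^ k + b * r : ℤ) : ℝ) / (m * n))‖ ≤ 1 := fun r _ => (norm_ee _).le
  refine (Finset.sum_le_card_nsmul _ _ _ this).trans ?_
  simp

open Classical in
theorem lift_mem (N p M n : ℕ) (c : ℤ) (x : ℤ) :
    x ∈ ((Finset.range N).filter (fun x => ((p : ℤ) ^ M) ∣ (x : ℤ) ^ n - c)) ↔
      ∃ y : ℕ, y < N ∧ x = y ∧ ((p : ℤ) ^ M) ∣ (x : ℤ) ^ n - c := by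
  simp only [Finset.mem_filter]
  constructor
  · rintro ⟨h1, h2⟩
    simp at h1
    obtain ⟨a, ha, rfl⟩ := h1
    exact ⟨a, ha, rfl, h2⟩
  · rintro ⟨y, hy, rfl, h2⟩
    refine ⟨?_, h2⟩
    simp
    exact hy

open Classical in
theorem g4_count (p M J n : ℕ) (c : ℤ) (hp : p.Prime) (hM : 1 ≤ M) (hn : 1 ≤ n)
    (hc : ¬ (p : ℤ) ∣ c) (hMJ : M ≤ J) (hRU : T_RU) :
    ((Finset.range (p ^ J)).filter (fun x => ((p : ℤ) ^ M) ∣ (x : ℤ) ^ n - c)).card ≤
      p ^ (J - M) * n ^ 2 := by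
  have h := hRU p M n c hp hM hn hc
  have hpM : 0 < p ^ M := pow_pos hp.pos _
  have hJ : p ^ J = p ^ (J - M) * p ^ M := by rw [← pow_add]; congr 1; omega
  calc ((Finset.range (p ^ J)).filter (fun x => ((p : ℤ) ^ M) ∣ (x : ℤ) ^ n - c)).card
      ≤ ((Finset.range (p ^ (J - M))) ×ˢ
        ((Finset.range (p ^ M)).filter (fun x => ((p : ℤ) ^ M) ∣ (x : ℤ) ^ n - c))).card := by
        apply Finset.card_le_card_of_injOn
          (fun x : ℤ => ((x / ((p ^ M : ℕ) : ℤ)).toNat, x % ((p ^ M : ℕ) : ℤ)))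
        · intro x hx
          rw [Finset.mem_coe, lift_mem (p ^ J) p M n c] at hx
          obtain ⟨y, hy, rfl, hx2⟩ := hx
          simp only [Finset.coe_product, Set.mem_prod, Finset.mem_coe]
          refine ⟨?_, ?_⟩
          · rw [Finset.mem_range, ← Int.natCast_div, Int.toNat_natCast, Nat.div_lt_iff_lt_mul hpM,
              ← hJ]
            exact hy
          · rw [lift_mem (p ^ M) p M n c]
            refine ⟨y % p ^ M, Nat.mod_lt _ hpM, by push_cast; rfl, ?_⟩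
            have e : ((y : ℤ) % ((p ^ M : ℕ) : ℤ)) ≡ (y : ℤ) [ZMOD ((p : ℤ) ^ M)] := by
              have := Int.mod_modEq (y : ℤ) ((p : ℤ) ^ M)
              push_cast
              exact this
            have e2 := (e.pow n).sub_right c
            exact (Int.modEq_zero_iff_dvd).1 (e2.trans ((Int.modEq_zero_iff_dvd).2 hx2))
        · intro x hx y hy hxy
          rw [Finset.mem_coe, lift_mem (p ^ J) p M n c] at hx hy
          obtain ⟨x, _, rfl, _⟩ := hx
          obtain ⟨y, _, rfl, _⟩ := hy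
          simp only [Prod.mk.injEq] at hxy
          obtain ⟨h1, h2⟩ := hxy
          rw [← Int.natCast_div, ← Int.natCast_div, Int.toNat_natCast, Int.toNat_natCast] at h1
          rw [← Int.natCast_mod, ← Int.natCast_mod] at h2
          have h2' : x % p ^ M = y % p ^ M := by exact_mod_cast h2
          have : x = y := by
            rw [← Nat.div_add_mod x (p ^ M), ← Nat.div_add_mod y (p ^ M), h1, h2']
          rw [this]
    _ = p ^ (J - M) * _ := by rw [Finset.card_product, Finset.card_range]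
    _ ≤ p ^ (J - M) * n ^ 2 := Nat.mul_le_mul_left _ h

theorem ks_G4 (hG2 : T_G2) (_hGE : T_GE) (hRU : T_RU) : T_G4 := by
  classical
  intro k p j v a b hp hk hvk hvk' hj ha hb
  have hp0 : 0 < p := hp.pos
  have hpR : (0 : ℝ) < p := by exact_mod_cast hp0
  have hRHS : 0 ≤ (k : ℝ) ^ 2 * (p : ℝ) ^ v / (p : ℝ) ^ (j / 2) := by positivity
  by_cases hvb : ((p : ℤ) ^ v) ∣ b
  · -- main case
    set i := j / 2 with hi
    have hi1 : v + 1 ≤ i := by omega
    have hij : i ≤ j := by omega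
    obtain ⟨k', rfl⟩ := hvk
    obtain ⟨b', rfl⟩ := hvb
    have hk' : ¬ (p : ℤ) ∣ (k' : ℤ) := by
      intro h
      apply hvk'
      have : p ∣ k' := by exact_mod_cast h
      rw [pow_succ]
      exact Nat.mul_dvd_mul_left _ this
    have hb' : ¬ (p : ℤ) ∣ b' := by
      intro h
      apply hb
      rw [pow_succ]
      exact mul_dvd_mul_left _ h
    have hpI : Prime (p : ℤ) := Nat.prime_iff_prime_int.1 hp
    have hka : ¬ (p : ℤ) ∣ (k' : ℤ) * a := by
      intro h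
      rcases hpI.dvd_or_dvd h with h | h
      · exact hk' h
      · exact ha h
    have hcop : IsCoprime ((k' : ℤ) * a) ((p : ℤ) ^ (i - v)) := by
      apply IsCoprime.pow_right
      rw [isCoprime_comm]
      exact (Prime.coprime_iff_not_dvd hpI).2 hka
    obtain ⟨u, w, huw⟩ := hcop
    -- u * (k' a) + w * p^(i-v) = 1
    have hu : ¬ (p : ℤ) ∣ u := by
      intro h
      have h1 : (p : ℤ) ∣ 1 := by
        rw [← huw]
        apply dvd_add (Dvd.dvd.mul_right h _)
        apply Dvd.dvd.mul_left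
        exact dvd_pow_self _ (by omega)
      exact hpI.not_isUnit (isUnit_of_dvd_one h1)
    have hc : ¬ (p : ℤ) ∣ (-(u * b')) := by
      rw [dvd_neg]
      intro h
      rcases hpI.dvd_or_dvd h with h | h
      · exact hu h
      · exact hb' h
    have key := g4_key hG2 (p ^ v * k') (p ^ j) (p ^ (j - i)) (p ^ i) a ((p : ℤ) ^ v * b')
      (by rw [← pow_add]; congr 1; omega) (Nat.one_le_pow _ _ hp0) (Nat.one_le_pow _ _ hp0)
      (pow_dvd_pow _ (by omega))
    have hsub : ((Finset.range (p ^ j)).filter (fun r => ((p ^ i : ℕ) : ℤ) ∣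
        ((p ^ v * k' : ℕ) : ℤ) * a * (r : ℤ) ^ (p ^ v * k' - 1) + (p : ℤ) ^ v * b')) ⊆
        ((Finset.range (p ^ j)).filter (fun x => ((p : ℤ) ^ (i - v)) ∣
          (x : ℤ) ^ (p ^ v * k' - 1) - (-(u * b')))) := by
      intro r hr
      rw [Finset.mem_filter] at hr ⊢
      refine ⟨hr.1, ?_⟩
      have h2 := hr.2
      have e : ((p ^ v * k' : ℕ) : ℤ) * a * (r : ℤ) ^ (p ^ v * k' - 1) + (p : ℤ) ^ v * b' =
          (p : ℤ) ^ v * ((k' : ℤ) * a * (r : ℤ) ^ (p ^ v * k' - 1) + b') := by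
        push_cast; ring
      have e' : ((p ^ i : ℕ) : ℤ) = (p : ℤ) ^ v * (p : ℤ) ^ (i - v) := by
        rw [← pow_add]; push_cast; congr 1; omega
      rw [e, e'] at h2
      have h3 : (p : ℤ) ^ (i - v) ∣ ((k' : ℤ) * a * (r : ℤ) ^ (p ^ v * k' - 1) + b') :=
        (mul_dvd_mul_iff_left (pow_ne_zero _ hpI.ne_zero)).1 h2
      obtain ⟨t, ht⟩ := h3
      refine ⟨u * t + w * (r : ℤ) ^ (p ^ v * k' - 1), ?_⟩
      have : (r : ℤ) ^ (p ^ v * k' - 1) = (u * ((k' : ℤ) * a) + w * (p : ℤ) ^ (i - v)) *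
          (r : ℤ) ^ (p ^ v * k' - 1) := by rw [huw, one_mul]
      calc (r : ℤ) ^ (p ^ v * k' - 1) - (-(u * b'))
          = (u * ((k' : ℤ) * a) + w * (p : ℤ) ^ (i - v)) * (r : ℤ) ^ (p ^ v * k' - 1)
              + u * b' := by rw [← this]; ring
        _ = u * ((k' : ℤ) * a * (r : ℤ) ^ (p ^ v * k' - 1) + b') +
              w * (p : ℤ) ^ (i - v) * (r : ℤ) ^ (p ^ v * k' - 1) := by ring
        _ = _ := by rw [ht]; ring
    have hcard := (Finset.card_le_card hsub).trans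
      (g4_count p (i - v) j (p ^ v * k' - 1) (-(u * b')) hp (by omega) (by omega) hc (by omega) hRU)
    refine key.trans ?_
    have hcardR : (((Finset.range (p ^ j)).filter (fun r => ((p ^ i : ℕ) : ℤ) ∣
        ((p ^ v * k' : ℕ) : ℤ) * a * (r : ℤ) ^ (p ^ v * k' - 1) + (p : ℤ) ^ v * b')).card : ℝ) ≤
        (p : ℝ) ^ (j - (i - v)) * ((p ^ v * k' : ℕ) : ℝ) ^ 2 := by
      have h1 : p ^ (j - (i - v)) * (p ^ v * k' - 1) ^ 2 ≤
          p ^ (j - (i - v)) * (p ^ v * k') ^ 2 :=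
        Nat.mul_le_mul_left _ (Nat.pow_le_pow_left (Nat.sub_le _ _) _)
      exact_mod_cast hcard.trans h1
    calc 1 / ((p ^ j : ℕ) : ℝ) * _ ≤ 1 / ((p ^ j : ℕ) : ℝ) *
          ((p : ℝ) ^ (j - (i - v)) * ((p ^ v * k' : ℕ) : ℝ) ^ 2) :=
          mul_le_mul_of_nonneg_left hcardR (by positivity)
      _ = ((p ^ v * k' : ℕ) : ℝ) ^ 2 * (p : ℝ) ^ v / (p : ℝ) ^ i := by
          have e3 : ((p ^ j : ℕ) : ℝ) * (p : ℝ) ^ v = (p : ℝ) ^ (j - (i - v)) * (p : ℝ) ^ i := by
            push_cast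
            rw [← pow_add, ← pow_add]
            congr 1; omega
          rw [div_mul_eq_mul_div, one_mul, div_eq_div_iff (by positivity) (by positivity)]
          calc (p : ℝ) ^ (j - (i - v)) * ((p ^ v * k' : ℕ) : ℝ) ^ 2 * (p : ℝ) ^ i
              = ((p ^ v * k' : ℕ) : ℝ) ^ 2 * ((p : ℝ) ^ (j - (i - v)) * (p : ℝ) ^ i) := by ring
            _ = ((p ^ v * k' : ℕ) : ℝ) ^ 2 * (((p ^ j : ℕ) : ℝ) * (p : ℝ) ^ v) := by rw [e3]
            _ = _ := by ring
  · -- empty case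
    have hv1 : 1 ≤ v := by
      rcases Nat.eq_zero_or_pos v with h | h
      · subst h; exact absurd (by simp) hvb
      · exact h
    have key := g4_key hG2 k (p ^ j) (p ^ (j - v)) (p ^ v) a b
      (by rw [← pow_add]; congr 1; omega) (Nat.one_le_pow _ _ hp0) (Nat.one_le_pow _ _ hp0)
      (pow_dvd_pow _ (by omega))
    have hempty : ((Finset.range (p ^ j)).filter (fun r => ((p ^ v : ℕ) : ℤ) ∣
        (k : ℤ) * a * (r : ℤ) ^ (k - 1) + b)) = ∅ := by
      rw [Finset.filter_eq_empty_iff]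
      intro r _ h
      apply hvb
      have h1 : ((p ^ v : ℕ) : ℤ) ∣ (k : ℤ) * a * (r : ℤ) ^ (k - 1) := by
        rw [mul_assoc]
        apply Dvd.dvd.mul_right
        exact_mod_cast hvk
      have h2 := (dvd_add_right h1).1 h
      exact_mod_cast h2
    rw [hempty] at key
    simp only [Finset.card_empty, Nat.cast_zero, mul_zero] at key
    exact key.trans hRHS

end Pool.Agent.H1.KS
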